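import Pool.Agent.Helper63.GB2.Defs

/-!
# MP_02f2ca_gt, dimension two, module N2 : algebraically independent reals
-/

open Set MeasureTheory Filter Topology

namespace GB

theorem exists_transc_aux (S : Subalgebra ℚ ℝ) (hS : Countable S) :
    ∃ x : ℝ, 0 < x ∧ x < 1 ∧ Transcendental S x := by
  by_contra hcon
  push Not at hcon
  have h1 : Set.Countable {x : ℝ | IsAlgebraic S x} := Algebraic.countable S ℝ
  have h2 : Set.Ioo (0 : ℝ) 1 ⊆ {x : ℝ | IsAlgebraic S x} := by
    intro x hx
    have := hcon x hx.1 hx.2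
    unfold Transcendental at this
    push Not at this
    exact this
  have h3 : Set.Countable (Set.Ioo (0 : ℝ) 1) := h1.mono h2
  have h4 : ¬ Set.Countable (Set.Ioo (0 : ℝ) 1) := by
    rw [← Cardinal.le_aleph0_iff_set_countable, Cardinal.mk_Ioo_real one_pos]
    exact not_le.mpr Cardinal.aleph0_lt_continuum
  exact h4 h3

theorem exists_algIndep :
    ∃ a₁ a₂ : ℝ, 0 < a₁ ∧ a₁ < 1 ∧ AlgebraicIndependent ℚ ![a₁, a₂] := by
  obtain ⟨x, hx0, hx1, hxt⟩ := exists_transc_aux ⊥ (by
    have : Function.Surjective (Algebra.botEquiv ℚ ℝ).symm := (Algebra.botEquiv ℚ ℝ).symm.surjective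
    exact this.countable)
  have hxt' : Transcendental ℚ x := by
    intro h
    exact hxt (h.extendScalars (algebraMap ℚ (⊥ : Subalgebra ℚ ℝ)).injective)
  have hX : AlgebraicIndependent ℚ (fun _ : Fin 1 => x) := by
    rw [algebraicIndependent_unique_type_iff]
    exact hxt'
  obtain ⟨y, hy0, hy1, hyt⟩ := exists_transc_aux
    (Algebra.adjoin ℚ (Set.range (fun _ : Fin 1 => x))) (by
      have hs : Function.Surjective hX.aevalEquiv := hX.aevalEquiv.surjective
      have : Countable (MvPolynomial (Fin 1) ℚ) := by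
        rw [← Cardinal.mk_le_aleph0_iff]
        refine (MvPolynomial.cardinalMk_le_max (σ := Fin 1) (R := ℚ)).trans ?_
        simp
      exact hs.countable)
  have hO := (hX.option_iff_transcendental y).mpr hyt
  refine ⟨x, y, hx0, hx1, ?_⟩
  have hinj : Function.Injective (fun i : Fin 2 => (if i = 0 then some 0 else none : Option (Fin 1))) := by
    intro i j hij
    fin_cases i <;> fin_cases j <;> simp_all
  have := hO.comp _ hinj
  convert this using 1
  funext i
  fin_cases i <;> simp

theorem qindep_of_algIndep {a₁ a₂ : ℝ} (h : AlgebraicIndependent ℚ ![a₁, a₂]) :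
    QIndep a₁ a₂ := by
  intro v k hv
  rw [algebraicIndependent_iff] at h
  have h1 := h (MvPolynomial.C (v.1 : ℚ) * MvPolynomial.X 0 + MvPolynomial.C (v.2 : ℚ) * MvPolynomial.X 1
    - MvPolynomial.C (k : ℚ)) (by
      simp only [Lf] at hv
      simp
      linarith)
  have e1 := congrArg (fun p => MvPolynomial.eval ![(1 : ℚ), 0] p) h1
  have e2 := congrArg (fun p => MvPolynomial.eval ![(0 : ℚ), 1] p) h1
  have e0 := congrArg (fun p => MvPolynomial.eval ![(0 : ℚ), 0] p) h1
  simp at e1 e2 e0
  have ek : k = 0 := by exact_mod_cast e0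
  subst ek
  simp at e1 e2
  ext
  · exact_mod_cast e1
  · exact_mod_cast e2

end GB
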