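import Pool.Agent.Helper63.GB2.Defs

/-!
# MP_02f2ca_gt, dimension two, module N8 (first part) : a good direction
-/

open Set MeasureTheory Filter Topology

namespace GB

theorem bad_volume_aux (q : ℂ) (hq : ‖q‖ = 1) (c : ℝ) (hc : 0 < c) (hc8 : c ≤ 1 / 8) :
    volume {r : ℝ | r ∈ Icc (0 : ℝ) 1 ∧ |q.re - q.im * r| < 3 / 2 * c} ≤ ENNReal.ofReal (6 * c) := by
  have hsq : q.re ^ 2 + q.im ^ 2 = 1 := by
    have h := Complex.sq_norm q
    rw [hq, Complex.normSq_apply] at h
    nlinarith
  rcases le_or_gt (1 / 2) |q.im| with him | him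
  · have hsub : {r : ℝ | r ∈ Icc (0 : ℝ) 1 ∧ |q.re - q.im * r| < 3 / 2 * c} ⊆
        Icc (q.re / q.im - 3 * c) (q.re / q.im + 3 * c) := by
      rintro r ⟨-, hr⟩
      have hne : q.im ≠ 0 := by
        intro h
        rw [h] at him
        norm_num at him
      have h1 : q.re - q.im * r = q.im * (q.re / q.im - r) := by
        field_simp
      rw [h1, abs_mul] at hr
      have h2 : |q.re / q.im - r| ≤ 3 * c := by
        by_contra hcon
        push Not at hcon
        have : 1 / 2 * (3 * c) ≤ |q.im| * |q.re / q.im - r| :=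
          mul_le_mul him hcon.le (by positivity) (abs_nonneg _)
        linarith
      rw [abs_le] at h2
      constructor <;> linarith [h2.1, h2.2]
    refine (measure_mono hsub).trans ?_
    rw [Real.volume_Icc]
    apply ENNReal.ofReal_le_ofReal
    linarith
  · have hempty : {r : ℝ | r ∈ Icc (0 : ℝ) 1 ∧ |q.re - q.im * r| < 3 / 2 * c} = ∅ := by
      ext r
      simp only [mem_ofPred_eq, mem_empty_iff_false, iff_false, not_and, not_lt]
      intro hr
      have h1 : |q.im * r| ≤ 1 / 2 := by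
        rw [abs_mul, abs_of_nonneg hr.1]
        nlinarith [abs_nonneg q.im, hr.2, hr.1]
      have h2 : 3 / 4 ≤ |q.re| := by
        have h3 : q.im ^ 2 < 1 / 4 := by
          rw [← sq_abs]
          nlinarith [abs_nonneg q.im]
        have h4 : 3 / 4 < q.re ^ 2 := by linarith
        rw [← sq_abs] at h4
        by_contra hcon
        push Not at hcon
        nlinarith [abs_nonneg q.re]
      have h5 : |q.re| - |q.im * r| ≤ |q.re - q.im * r| := abs_sub_abs_le_abs_sub _ _
      linarith
    rw [hempty]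
    simp

/-- a good direction -/
theorem exists_direction (Q : Finset ℂ) (hQ : ∀ q ∈ Q, ‖q‖ = 1) :
    ∃ τ : ℂ, ‖τ‖ = 1 ∧ (∀ q ∈ Q, 1 / (8 * ((Q.card : ℝ) + 1)) ≤ |(q * τ).re|) ∧
      ∀ q ∈ Q, ∀ q' ∈ Q, (q * τ).re = (q' * τ).re → q = q' := by
  set c : ℝ := 1 / (8 * ((Q.card : ℝ) + 1)) with hc
  have hcpos : 0 < c := by positivity
  have hc8 : c ≤ 1 / 8 := by
    rw [hc]
    apply one_div_le_one_div_of_le (by norm_num)
    have : (0 : ℝ) ≤ Q.card := Nat.cast_nonneg _
    linarith
  set F : Finset ℝ := (Q ×ˢ Q).image (fun x => (x.1.re - x.2.re) / (x.1.im - x.2.im)) with hF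
  set Bd : ℂ → Set ℝ := fun q => {r : ℝ | r ∈ Icc (0 : ℝ) 1 ∧ |q.re - q.im * r| < 3 / 2 * c} with hBd
  have hex : ∃ r ∈ Icc (0 : ℝ) 1, (∀ q ∈ Q, r ∉ Bd q) ∧ r ∉ F := by
    by_contra hcon
    push Not at hcon
    have hsub : Icc (0 : ℝ) 1 ⊆ (⋃ q ∈ Q, Bd q) ∪ (F : Set ℝ) := by
      intro r hr
      by_cases h : ∀ q ∈ Q, r ∉ Bd q
      · exact Or.inr (hcon r hr h)
      · push Not at h
        obtain ⟨q, hq, hrq⟩ := h
        left
        simp only [mem_iUnion]
        exact ⟨q, hq, hrq⟩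
    have h1 : volume (Icc (0 : ℝ) 1) ≤ ENNReal.ofReal (Q.card * (6 * c)) := by
      refine (measure_mono hsub).trans ((measure_union_le _ _).trans ?_)
      have hF0 : volume (F : Set ℝ) = 0 := (Finset.countable_toSet F).measure_zero _
      rw [hF0, add_zero]
      refine (measure_biUnion_finset_le Q Bd).trans ?_
      calc ∑ q ∈ Q, volume (Bd q) ≤ ∑ q ∈ Q, ENNReal.ofReal (6 * c) :=
            Finset.sum_le_sum (fun q hq => bad_volume_aux q (hQ q hq) c hcpos hc8)
        _ = ENNReal.ofReal (Q.card * (6 * c)) := by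
            rw [Finset.sum_const, nsmul_eq_mul, ENNReal.ofReal_mul (Nat.cast_nonneg _),
              ENNReal.ofReal_natCast]
    rw [Real.volume_Icc] at h1
    have h2 : (1 : ℝ) - 0 ≤ Q.card * (6 * c) := by
      rw [ENNReal.ofReal_le_ofReal_iff (by positivity)] at h1
      exact h1
    have h3 : (Q.card : ℝ) * (6 * c) < 1 := by
      rw [hc]
      have : (0 : ℝ) ≤ Q.card := Nat.cast_nonneg _
      rw [show (Q.card : ℝ) * (6 * (1 / (8 * ((Q.card : ℝ) + 1)))) =
        (6 * Q.card) / (8 * ((Q.card : ℝ) + 1)) by field_simp, div_lt_one (by positivity)]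
      linarith
    linarith
  obtain ⟨r, hr, hr1, hr2⟩ := hex
  set z : ℂ := ⟨1, r⟩ with hz
  set N : ℝ := ‖z‖ with hN
  have hN2 : N ^ 2 = 1 + r ^ 2 := by
    rw [hN, Complex.sq_norm, Complex.normSq_apply]
    simp [hz]
    ring
  have hNpos : 0 < N := by
    rw [hN, norm_pos_iff]
    intro h
    have := congrArg Complex.re h
    simp [hz] at this
  have hN32 : N ≤ 3 / 2 := by
    by_contra hcon
    push Not at hcon
    nlinarith [hr.1, hr.2]
  have hre : ∀ q : ℂ, (q * (z / (N : ℂ))).re = (q.re - q.im * r) / N := by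
    intro q
    rw [← mul_div_assoc, Complex.div_ofReal_re, Complex.mul_re]
    simp [hz]
  refine ⟨z / (N : ℂ), ?_, ?_, ?_⟩
  · rw [norm_div, Complex.norm_real, Real.norm_eq_abs, abs_of_pos hNpos, ← hN,
      div_self hNpos.ne']
  · intro q hq
    rw [hre, abs_div, abs_of_pos hNpos, le_div_iff₀ hNpos]
    have h1 := hr1 q hq
    simp only [hBd, mem_ofPred_eq, not_and, not_lt] at h1
    have h2 := h1 hr
    nlinarith
  · intro q hq q' hq' h
    rw [hre, hre] at h
    have h1 : q.re - q.im * r = q'.re - q'.im * r := by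
      field_simp at h
      linarith
    by_cases him : q.im = q'.im
    · apply Complex.ext _ him
      rw [him] at h1
      linarith
    · exfalso
      apply hr2
      rw [hF, Finset.mem_image]
      refine ⟨(q, q'), Finset.mem_product.mpr ⟨hq, hq'⟩, ?_⟩
      have hne : q.im - q'.im ≠ 0 := sub_ne_zero.mpr him
      simp only
      rw [div_eq_iff hne]
      linarith

end GB
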